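import Mathlib
import Pool.Agent.W311.TW.Red3
import Pool.Agent.W262.TW.Full

/-! Sections of twists of curves with rational branch points: square classes and the final estimate
(the proofs of `redr`, `finr` are adapted from `W311.TW.red3` by helper311 and `W460.TW.fins` by
helper460). -/

namespace Pool.Agent.W262.G3

open Finset Filter Pool.Agent.W262.RK Pool.Agent.W262.TW Pool.Agent.W311.TW

/-- the square classes at the primes `p > z0`, not of constant type -/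
def SelR {K : Type} [Fintype K] [DecidableEq K] (c : K → K → ℤ) (z0 : ℕ) (d : ℤ) : Prop :=
  ∃ s : K → ℤ, (∀ k, Squarefree (s k)) ∧ IsSquare (d * ∏ k, s k) ∧
    (∀ p : ℕ, p.Prime → z0 < p → ∀ i, (p : ℤ) ∣ s i →
      (∀ k, k ≠ i → ¬ (p : ℤ) ∣ s k) ∧ ngs s i p ∈ Ths c i p) ∧ NC c s

theorem redr (K : Type) [Fintype K] [DecidableEq K] (c : K → K → ℤ) (z0 z : ℕ) (hz : z0 ≤ z)
    (X : ℕ) : {d : ℤ | d.natAbs ≤ X ∧ Squarefree d ∧ SelR c z0 d}.ncard ≤
      (EE z).card * ∑ κ ∈ Fintype.piFinset (fun _ : K => EE z), cntS z X κ c := by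
  classical
  set G : (K → ℤ) → Finset (K → ℕ) := fun κ =>
    (Fintype.piFinset (fun _ : K => Icc 1 X)).filter (fun D => (∀ i, Rg z (D i)) ∧
    (∀ i j, i ≠ j → (D i).Coprime (D j)) ∧ ∏ i, D i ≤ X ∧
    (∀ i, ∀ p ∈ (D i).primeFactors, ngs (fun k => κ k * D k) i p ∈ Ths c i p) ∧
    NC c (fun k => κ k * D k)) with hG
  set Tt : Finset (ℤ × (Σ _ : K → ℤ, K → ℕ)) :=
    (EE z) ×ˢ ((Fintype.piFinset (fun _ : K => EE z)).sigma G) with hTt
  have hcard : Tt.card = (EE z).card * ∑ κ ∈ Fintype.piFinset (fun _ : K => EE z), cntS z X κ c := by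
    rw [hTt, Finset.card_product, Finset.card_sigma]
    rfl
  rw [← hcard]
  have hsub : {d : ℤ | d.natAbs ≤ X ∧ Squarefree d ∧ SelR c z0 d} ⊆
      ((Tt.image (fun x => x.1 * ((∏ k, x.2.2 k : ℕ) : ℤ)) : Finset ℤ) : Set ℤ) := by
    rintro d ⟨hdX, hd, s, hs, ⟨u, hu⟩, hloc, hNC⟩
    -- local information
    have hL : ∀ p : ℕ, p.Prime → z < p → ∀ i, (p : ℤ) ∣ s i →
        (∀ k, k ≠ i → ¬ (p : ℤ) ∣ s k) ∧ ngs s i p ∈ Ths c i p := by
      intro p hp hzp i hi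
      exact hloc p hp (by omega) i hi
    have hdiv : ∀ p : ℕ, p.Prime → z < p → ((p : ℤ) ∣ d ↔ ∃ k, (p : ℤ) ∣ s k) := by
      intro p hp hzp
      have hpZ : _root_.Prime (p : ℤ) := Nat.prime_iff_prime_int.mp hp
      have hpu : (p : ℤ) ∣ d * ∏ k, s k → (p : ℤ) ^ 2 ∣ d * ∏ k, s k := by
        intro h1
        rw [hu] at h1 ⊢
        have : (p : ℤ) ∣ u := by
          rcases hpZ.dvd_or_dvd h1 with h | h <;> exact h
        rw [← sq]
        exact pow_dvd_pow_of_dvd this 2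
      constructor
      · intro h1
        by_contra h2
        push Not at h2
        have h3 := hpu (h1.mul_right _)
        have h4 : ¬ (p : ℤ) ∣ ∏ k, s k := by
          rw [Prime.dvd_finset_prod_iff hpZ]
          rintro ⟨k, -, hk⟩
          exact h2 k hk
        have h5 : (p : ℤ) ^ 2 ∣ d := by
          have hc : IsCoprime ((p : ℤ) ^ 2) (∏ k, s k) :=
            IsCoprime.pow_left ((Prime.coprime_iff_not_dvd hpZ).mpr h4)
          exact hc.dvd_of_dvd_mul_right h3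
        exact hpZ.not_unit (hd _ (by rw [← sq]; exact h5))
      · rintro ⟨k, hk⟩
        by_contra h2
        have h3 := hpu (Dvd.dvd.mul_left (hk.trans (Finset.dvd_prod_of_mem s (Finset.mem_univ k))) _)
        have hc : IsCoprime ((p : ℤ) ^ 2) d :=
          IsCoprime.pow_left ((Prime.coprime_iff_not_dvd hpZ).mpr h2)
        have h4 : (p : ℤ) ^ 2 ∣ ∏ k, s k := hc.dvd_of_dvd_mul_left h3
        rw [← Finset.mul_prod_erase _ _ (Finset.mem_univ k)] at h4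
        have h5 : ¬ (p : ℤ) ∣ ∏ j ∈ Finset.univ.erase k, s j := by
          rw [Prime.dvd_finset_prod_iff hpZ]
          rintro ⟨j, hj, hj'⟩
          exact (hL p hp hzp k hk).1 j (Finset.ne_of_mem_erase hj) hj'
        have hc' : IsCoprime ((p : ℤ) ^ 2) (∏ j ∈ Finset.univ.erase k, s j) :=
          IsCoprime.pow_left ((Prime.coprime_iff_not_dvd hpZ).mpr h5)
        have h6 : (p : ℤ) ^ 2 ∣ s k := hc'.dvd_of_dvd_mul_right h4
        exact hpZ.not_unit (hs k _ (by rw [← sq]; exact h6))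
    have hcop : ∀ i j, i ≠ j → (Dz z (s i)).Coprime (Dz z (s j)) := by
      intro i j hij
      rw [Nat.coprime_iff_gcd_eq_one] 
      by_contra hg
      obtain ⟨p, hp, hpd⟩ := Nat.exists_prime_and_dvd hg
      have h1 := (dvd_Dz (hs i) hp).mp (hpd.trans (Nat.gcd_dvd_left _ _))
      have h2 := (dvd_Dz (hs j) hp).mp (hpd.trans (Nat.gcd_dvd_right _ _))
      exact (hL p hp h1.1 i h1.2).1 j (Ne.symm hij) h2.2
    have hprod : ∏ k, Dz z (s k) = Dz z d := by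
      have hs0 : ∀ k, (s k).natAbs ≠ 0 := fun k => by
        rw [Int.natAbs_ne_zero]; exact (hs k).ne_zero
      have hd0 : d.natAbs ≠ 0 := by
        rw [Int.natAbs_ne_zero]; exact hd.ne_zero
      unfold Dz
      rw [← Finset.prod_biUnion]
      · apply Finset.prod_congr _ (fun _ _ => rfl)
        ext p
        simp only [Finset.mem_biUnion, Finset.mem_univ, true_and, Finset.mem_filter,
          Nat.mem_primeFactors]
        constructor
        · rintro ⟨k, ⟨hp, hpk, -⟩, hzp⟩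
          exact ⟨⟨hp, Int.natCast_dvd.mp ((hdiv p hp hzp).mpr ⟨k, Int.natCast_dvd.mpr hpk⟩), hd0⟩, hzp⟩
        · rintro ⟨⟨hp, hpd, -⟩, hzp⟩
          obtain ⟨k, hk⟩ := (hdiv p hp hzp).mp (Int.natCast_dvd.mpr hpd)
          exact ⟨k, ⟨hp, Int.natCast_dvd.mp hk, hs0 k⟩, hzp⟩
      · intro i _ j _ hij
        rw [Function.onFun, Finset.disjoint_left]
        intro p hp hp'
        rw [Finset.mem_filter, Nat.mem_primeFactors] at hp hp'
        exact (hL p hp.1.1 hp.2 i (Int.natCast_dvd.mpr hp.1.2.1)).1 j (Ne.symm hij)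
          (Int.natCast_dvd.mpr hp'.1.2.1)
    choose κ hκ hκs using fun k => exists_EE (z := z) (hs k)
    obtain ⟨d0, hd0, hdd⟩ := exists_EE (z := z) hd
    have hPX : ∏ k, Dz z (s k) ≤ X := by
      rw [hprod]
      exact (Dz_le hd).trans hdX
    rw [Finset.mem_coe, Finset.mem_image]
    refine ⟨(d0, ⟨κ, fun k => Dz z (s k)⟩), ?_, ?_⟩
    · rw [hTt, Finset.mem_product, Finset.mem_sigma]
      refine ⟨hd0, Fintype.mem_piFinset.mpr hκ, ?_⟩
      rw [hG]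
      simp only [Finset.mem_filter, Fintype.mem_piFinset, Finset.mem_Icc]
      have h3 : (fun k => κ k * (Dz z (s k) : ℤ)) = s := by
        funext k
        exact (hκs k).symm
      refine ⟨fun k => ⟨Dz_pos, ?_⟩, fun i => Dz_sqf (hs i), hcop, hPX, ?_, ?_⟩
      · refine le_trans ?_ hPX
        exact Finset.single_le_prod' (f := fun k => Dz z (s k)) (fun k _ => Dz_pos) (Finset.mem_univ k)
      · intro i p hp
        have hpp := Nat.prime_of_mem_primeFactors hp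
        have h1 := (dvd_Dz (hs i) hpp).mp (Nat.dvd_of_mem_primeFactors hp)
        have h2 := (hL p hpp h1.1 i h1.2).2
        rw [h3]
        exact h2
      · rw [h3]
        exact hNC
    · show d0 * ((∏ k, Dz z (s k) : ℕ) : ℤ) = d
      rw [hprod]
      exact hdd.symm
  calc _ ≤ ((Tt.image (fun x => x.1 * ((∏ k, x.2.2 k : ℕ) : ℤ)) : Finset ℤ) : Set ℤ).ncard :=
        Set.ncard_le_ncard hsub (Finset.finite_toSet _)
    _ = (Tt.image (fun x => x.1 * ((∏ k, x.2.2 k : ℕ) : ℤ)) : Finset ℤ).card := Set.ncard_coe_finset _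
    _ ≤ Tt.card := Finset.card_image_le

theorem finr3 (K : Type) [Fintype K] [DecidableEq K] (c : K → K → ℤ) (hK : 5 ≤ Fintype.card K)
    (hne : ∀ i k, i ≠ k → c i k ≠ 0)
    (hsq : ∀ i k, i ≠ k → ∃ l l', l ≠ i ∧ l ≠ k ∧ l' ≠ i ∧ l' ≠ k ∧
      ¬ IsSquare (c i l * c i l' * (c k l * c k l'))) (z1 : ℕ) :
    ∃ C : ℝ, ∀ X : ℕ, 3 ≤ X →
      ({d : ℤ | d.natAbs ≤ X ∧ Squarefree d ∧ SelR c z1 d}.ncard : ℝ) ≤
        C * X * (Real.log X) ^ (-(1 / 5 : ℝ)) := by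
  classical
  obtain ⟨z2, hz2⟩ := W554.TW.prs W578.TW.UBQ.ubq K c hK hne hsq
  set z := max (max z1 z2) 2 with hz
  have hz1' : z1 ≤ z := (le_max_left _ _).trans (le_max_left _ _)
  have hz2' : z2 ≤ z := (le_max_right _ _).trans (le_max_left _ _)
  have hz3 : 2 ≤ z := le_max_right _ _
  obtain ⟨C4, hC4, hP⟩ := hz2 z hz2'
  have hkey : ∀ κ : K → ℤ, ∃ C : ℝ, 0 ≤ C ∧ (κ ∈ Fintype.piFinset (fun _ : K => EE z) →
      ∀ᶠ X : ℕ in atTop, (cntS z X κ c : ℝ) ≤ C * X * (Real.log X) ^ (-(1 / 5 : ℝ))) := by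
    intro κ
    by_cases hκ : κ ∈ Fintype.piFinset (fun _ : K => EE z)
    · obtain ⟨C, hC0, hC⟩ := W460.TW.key abs1_all W762.TW.regs c z hz3 C4 hC4 κ hκ (hP κ hκ)
      exact ⟨C, hC0, fun _ => hC⟩
    · exact ⟨0, le_rfl, fun h => absurd h hκ⟩
  choose Cκ hC0 hCκ using hkey
  set C1 : ℝ := (EE z).card * ∑ κ ∈ Fintype.piFinset (fun _ : K => EE z), Cκ κ with hC1
  have hC10 : 0 ≤ C1 := mul_nonneg (Nat.cast_nonneg _) (Finset.sum_nonneg fun κ _ => hC0 κ)
  have hev : ∀ᶠ X : ℕ in atTop,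
      ({d : ℤ | d.natAbs ≤ X ∧ Squarefree d ∧ SelR c z1 d}.ncard : ℝ) ≤
        C1 * X * (Real.log X) ^ (-(1 / 5 : ℝ)) := by
    have hall : ∀ᶠ X : ℕ in atTop, ∀ κ ∈ Fintype.piFinset (fun _ : K => EE z),
        (cntS z X κ c : ℝ) ≤ Cκ κ * X * (Real.log X) ^ (-(1 / 5 : ℝ)) := by
      rw [Filter.eventually_all_finset]
      exact fun κ hκ => hCκ κ hκ
    filter_upwards [hall] with X hX
    have e1 := redr K c z1 z hz1' X
    have e2 : ({d : ℤ | d.natAbs ≤ X ∧ Squarefree d ∧ SelR c z1 d}.ncard : ℝ) ≤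
        (EE z).card * ∑ κ ∈ Fintype.piFinset (fun _ : K => EE z), (cntS z X κ c : ℝ) := by
      exact_mod_cast e1
    refine e2.trans ?_
    calc _ ≤ ((EE z).card : ℝ) * ∑ κ ∈ Fintype.piFinset (fun _ : K => EE z),
          Cκ κ * X * (Real.log X) ^ (-(1 / 5 : ℝ)) :=
          mul_le_mul_of_nonneg_left (Finset.sum_le_sum hX) (Nat.cast_nonneg _)
      _ = C1 * X * (Real.log X) ^ (-(1 / 5 : ℝ)) := by
          rw [← Finset.sum_mul, ← Finset.sum_mul, hC1]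
          ring
  obtain ⟨X0, hX0⟩ := eventually_atTop.mp hev
  set D : ℝ := (Real.log (X0 + 3)) ^ (1 / 5 : ℝ) with hD
  have hD0 : 0 ≤ D := Real.rpow_nonneg (Real.log_nonneg (by
    have : (0 : ℝ) ≤ X0 := Nat.cast_nonneg _
    linarith)) _
  refine ⟨C1 + 3 * D, fun X hX3 => ?_⟩
  have hX3' : (3 : ℝ) ≤ X := by exact_mod_cast hX3
  have hlog : 0 < Real.log (X : ℝ) := Real.log_pos (by linarith)
  have hlp : 0 < Real.log (X : ℝ) ^ (-(1 / 5 : ℝ)) := Real.rpow_pos_of_pos hlog _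
  rcases le_or_gt X0 X with h | h
  · refine (hX0 X h).trans ?_
    have : 0 ≤ 3 * D * X * (Real.log X) ^ (-(1 / 5 : ℝ)) := by positivity
    nlinarith
  · have e1 : {d : ℤ | d.natAbs ≤ X ∧ Squarefree d ∧ SelR c z1 d} ⊆
        (Finset.Icc (-(X : ℤ)) X : Finset ℤ) := by
      intro d hd
      have h5 : d.natAbs ≤ X := hd.1
      rw [Finset.coe_Icc, Set.mem_Icc]
      omega
    have e2 := Set.ncard_le_ncard e1 (Finset.finite_toSet _)
    rw [Set.ncard_coe_finset, Int.card_Icc] at e2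
    have e3 : ({d : ℤ | d.natAbs ≤ X ∧ Squarefree d ∧ SelR c z1 d}.ncard : ℝ) ≤ 3 * X := by
      have : {d : ℤ | d.natAbs ≤ X ∧ Squarefree d ∧ SelR c z1 d}.ncard ≤ 3 * X := by omega
      exact_mod_cast this
    refine e3.trans ?_
    have e4 : 1 ≤ D * Real.log (X : ℝ) ^ (-(1 / 5 : ℝ)) := by
      rw [Real.rpow_neg hlog.le, ← div_eq_mul_inv, le_div_iff₀ (Real.rpow_pos_of_pos hlog _),
        one_mul, hD]
      apply Real.rpow_le_rpow hlog.le _ (by norm_num)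
      apply Real.log_le_log (by linarith)
      have : (X : ℝ) ≤ X0 := by exact_mod_cast h.le
      linarith
    have e5 : 0 ≤ C1 * X * (Real.log X) ^ (-(1 / 5 : ℝ)) := by positivity
    have e6 : 3 * (X : ℝ) * 1 ≤ 3 * X * (D * Real.log (X : ℝ) ^ (-(1 / 5 : ℝ))) :=
      mul_le_mul_of_nonneg_left e4 (by positivity)
    calc 3 * (X : ℝ) = 3 * X * 1 := by ring
      _ ≤ 3 * X * (D * Real.log (X : ℝ) ^ (-(1 / 5 : ℝ))) := e6
      _ ≤ (C1 + 3 * D) * X * (Real.log X) ^ (-(1 / 5 : ℝ)) := by nlinarith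


theorem finr (K : Type) [Fintype K] [DecidableEq K] (c : K → K → ℤ) (hK : 5 ≤ Fintype.card K)
    (hne : ∀ i k, i ≠ k → c i k ≠ 0)
    (hsq : ∀ i k, i ≠ k → ∃ l l', l ≠ i ∧ l ≠ k ∧ l' ≠ i ∧ l' ≠ k ∧
      ¬ IsSquare (c i l * c i l' * (c k l * c k l'))) (z0 : ℕ) :
    ∃ C : ℝ, ∀ X : ℕ, 2 ≤ X →
      ({d : ℤ | d.natAbs ≤ X ∧ Squarefree d ∧ SelR c z0 d}.ncard : ℝ) ≤
        C * X * (Real.log X) ^ (-(1 / 5) : ℝ) := by
  set δ : ℝ := 1 / 5 with hδ
  obtain ⟨C, hC⟩ := finr3 K c hK hne hsq z0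
  refine ⟨max C (5 / 2 * (Real.log 2) ^ δ), fun X hX => ?_⟩
  have hl2 : 0 < Real.log 2 := Real.log_pos (by norm_num)
  rcases Nat.lt_or_ge 2 X with h | h
  · refine (hC X h).trans ?_
    have h1 : (0 : ℝ) ≤ Real.log X := Real.log_natCast_nonneg X
    have h2 : (0 : ℝ) ≤ (Real.log X) ^ (-δ) := Real.rpow_nonneg h1 _
    exact mul_le_mul_of_nonneg_right
      (mul_le_mul_of_nonneg_right (le_max_left _ _) (Nat.cast_nonneg _)) h2
  · obtain rfl : X = 2 := le_antisymm h hX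
    have h3 : {d : ℤ | d.natAbs ≤ 2 ∧ Squarefree d ∧ SelR c z0 d}.ncard ≤ 5 := by
      have h4 : {d : ℤ | d.natAbs ≤ 2 ∧ Squarefree d ∧ SelR c z0 d} ⊆
          ((Finset.Icc (-2 : ℤ) 2 : Finset ℤ) : Set ℤ) := by
        intro d hd
        have h5 : d.natAbs ≤ 2 := hd.1
        rw [Finset.mem_coe, Finset.mem_Icc]
        omega
      refine (Set.ncard_le_ncard h4 (Finset.finite_toSet _)).trans ?_
      rw [Set.ncard_coe_finset]
      rfl
    have h6 : ({d : ℤ | d.natAbs ≤ 2 ∧ Squarefree d ∧ SelR c z0 d}.ncard : ℝ) ≤ 5 := by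
      exact_mod_cast h3
    refine h6.trans ?_
    have h7 : (0 : ℝ) ≤ ((2 : ℕ) : ℝ) * (Real.log ((2 : ℕ) : ℝ)) ^ (-δ) := by positivity
    have h8 : (5 : ℝ) = (5 / 2 * (Real.log 2) ^ δ) * (((2 : ℕ) : ℝ) *
        (Real.log ((2 : ℕ) : ℝ)) ^ (-δ)) := by
      have h9 : (Real.log 2) ^ δ * (Real.log 2) ^ (-δ) = 1 := by
        rw [← Real.rpow_add hl2]
        simp
      push_cast
      linear_combination (-5 : ℝ) * h9
    calc (5 : ℝ) = (5 / 2 * (Real.log 2) ^ δ) * (((2 : ℕ) : ℝ) *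
          (Real.log ((2 : ℕ) : ℝ)) ^ (-δ)) := h8
      _ ≤ (max C (5 / 2 * (Real.log 2) ^ δ)) * (((2 : ℕ) : ℝ) *
          (Real.log ((2 : ℕ) : ℝ)) ^ (-δ)) := mul_le_mul_of_nonneg_right (le_max_right _ _) h7
      _ = _ := by rw [mul_assoc]

end Pool.Agent.W262.G3
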