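import Mathlib
import Pool.Agent.W262.G3.Red
import Pool.Agent.W405.S3.Arith

/-! Sections of twists of curves with rational branch points: combination of the square classes. -/

namespace Pool.Agent.W262.G3

open Finset Pool.Agent.W262.TW Pool.Agent.W405.S3

theorem isSquare_of_mul_sq {a t : ℤ} (ht : t ≠ 0) (h : IsSquare (a * t ^ 2)) : IsSquare a := by
  rw [← Rat.isSquare_intCast_iff] at h ⊢
  obtain ⟨w, hw⟩ := h
  have ht' : (t : ℚ) ≠ 0 := by exact_mod_cast ht
  refine ⟨w / t, ?_⟩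
  push_cast at hw
  rw [div_mul_div_comm, eq_div_iff (mul_ne_zero ht' ht')]
  linear_combination hw

theorem val_sqf {p : ℕ} [Fact p.Prime] {a : ℤ} (ha : Squarefree a) :
    padicValInt p a = if (p : ℤ) ∣ a then 1 else 0 := by
  have hp := Fact.out (p := p.Prime)
  have hpz := Nat.prime_iff_prime_int.mp hp
  have h2 : padicValInt p a < 2 := by
    by_contra h
    have h3 := (padicValInt_dvd_iff (p := p) 2 a).mpr (Or.inr (by omega))
    exact hpz.not_isUnit (ha _ (by rw [← sq]; exact h3))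
  split_ifs with h
  · have h3 := (padicValInt_dvd_iff (p := p) 1 a).mp (by rw [pow_one]; exact h)
    rcases h3 with h3 | h3
    · exact absurd h3 ha.ne_zero
    · omega
  · by_contra h3
    apply h
    have h4 := (padicValInt_dvd_iff (p := p) 1 a).mpr (Or.inr (by omega))
    rwa [pow_one] at h4

theorem par {p : ℕ} [Fact p.Prime] {a b s t : ℤ} (ha : Squarefree a) (hb : Squarefree b)
    (hs : Squarefree s) (ht : t ≠ 0) (h : a * b = s * t ^ 2) :
    (p : ℤ) ∣ s ↔ ¬ ((p : ℤ) ∣ a ↔ (p : ℤ) ∣ b) := by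
  have h1 := congrArg (padicValInt p) h
  rw [padicValInt.mul ha.ne_zero hb.ne_zero, padicValInt.mul hs.ne_zero (pow_ne_zero 2 ht), sq,
    padicValInt.mul ht ht, val_sqf ha, val_sqf hb, val_sqf hs] at h1
  by_cases e1 : (p : ℤ) ∣ a <;> by_cases e2 : (p : ℤ) ∣ b <;> by_cases e3 : (p : ℤ) ∣ s <;>
    simp [e1, e2, e3] at h1 ⊢ <;> omega

section

variable {K : Type} [Fintype K] [DecidableEq K]

/-- the square classes at a prime of type `i` -/
def TI (e : K → ℤ) (s : K → K → ℤ) (p : ℕ) (i : K) : Prop :=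
  (∀ k l, k ≠ i → l ≠ i → ¬ (p : ℤ) ∣ s k l ∧
    ∃ n : ℤ, (p : ℤ) ∣ s k l * ((e i - e k) * (e i - e l)) - n ^ 2) ∧
  ∀ k, k ≠ i → (p : ℤ) ∣ s k i ∧ (p : ℤ) ∣ s i k

theorem comb (e : K → ℤ) (hK : 3 ≤ Fintype.card K) (hev : Even (Fintype.card K)) (z0 : ℕ)
    (hz0 : ∀ i k, i ≠ k → ∀ p : ℕ, z0 < p → ¬ (p : ℤ) ∣ e i - e k)
    (d : ℤ) (s : K → K → ℤ) (hs : ∀ k l, Squarefree (s k l)) (h1 : ∀ k, s k k = 1)
    (hcoc : ∀ k l m, IsSquare (s k l * s k m * s l m))
    (hprod : ∀ l, IsSquare (d * ∏ k, s k l)) (hd : d ≠ 0)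
    (hloc0 : ∀ p : ℕ, p.Prime → z0 < p → ¬ (p : ℤ) ∣ d → ∀ k l, ¬ (p : ℤ) ∣ s k l)
    (hloc1 : ∀ p : ℕ, p.Prime → z0 < p → (p : ℤ) ∣ d → ∃ i, TI e s p i) :
    ∃ S : K → ℤ, (∀ k, Squarefree (S k)) ∧ IsSquare (d * ∏ k, S k) ∧
      (∀ p : ℕ, p.Prime → z0 < p → ∀ i, (p : ℤ) ∣ S i →
        (∀ k, k ≠ i → ¬ (p : ℤ) ∣ S k) ∧ ngs S i p ∈ Ths (fun i k => e i - e k) i p) ∧
      ∀ k l, IsSquare (S k * S l * s k l) := by
  classical
  have hne : Nonempty K := Fintype.card_pos_iff.mp (by omega)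
  obtain ⟨k0⟩ := hne
  have h3 : ∀ i j : K, ∃ k, k ≠ i ∧ k ≠ j := by
    intro i j
    have : ({i, j} : Finset K).card < Fintype.card K := by
      refine lt_of_le_of_lt (card_le_two) (by omega)
    obtain ⟨k, hk⟩ := Finset.exists_mem_notMem_of_card_lt_card
      (s := ({i, j} : Finset K)) (t := univ) (by rwa [card_univ])
    refine ⟨k, ?_, ?_⟩ <;> rintro rfl <;> simp at hk
  -- the number `λ`
  set P : Finset ℕ := d.natAbs.primeFactors.filter (fun p => z0 < p ∧ TI e s p k0) with hP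
  set L : ℤ := ((∏ p ∈ P, p : ℕ) : ℤ) with hL
  have hLsq : Squarefree L := by
    rw [hL, Int.squarefree_natCast]
    have hd2 : (∏ p ∈ P, p) ∣ ∏ p ∈ d.natAbs.primeFactors, p :=
      prod_dvd_prod_of_subset _ _ _ (filter_subset _ _)
    refine Squarefree.squarefree_of_dvd hd2 ?_
    exact (Nat.squarefree_iff_prime_squarefree.mpr (by
      intro q hq hqq
      have hco : ∀ r ∈ d.natAbs.primeFactors, r.Prime := fun r hr => Nat.prime_of_mem_primeFactors hr
      have := Finset.squarefree_prod_of_pairwise_isCoprime (s := d.natAbs.primeFactors)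
        (f := fun p => p) (by
          intro a ha b hb hab
          rw [Function.onFun, ← Nat.coprime_iff_isRelPrime]
          exact (Nat.coprime_primes (hco a ha) (hco b hb)).mpr hab)
        (fun a ha => (hco a ha).prime.squarefree)
      exact hq.prime.not_isUnit (this q hqq)))
  have hLdvd : ∀ p : ℕ, p.Prime → ((p : ℤ) ∣ L ↔ p ∈ P) := by
    intro p hp
    rw [hL, Int.natCast_dvd_natCast, hp.prime.dvd_finsetProd_iff]
    constructor
    · rintro ⟨q, hq, hpq⟩
      have hq' := Nat.prime_of_mem_primeFactors (mem_filter.mp hq).1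
      rw [Nat.prime_dvd_prime_iff_eq hp hq'] at hpq
      rwa [hpq]
    · exact fun h => ⟨p, h, dvd_refl p⟩
  have hL0 : L ≠ 0 := hLsq.ne_zero
  have hex : ∀ k, ∃ S t : ℤ, t ≠ 0 ∧ Squarefree S ∧ L * s k k0 = S * t ^ 2 := by
    intro k
    exact W311.TW.exists_sqf (L * s k k0) (mul_ne_zero hL0 (hs k k0).ne_zero)
  choose S t ht hS hSt using hex
  have hpar : ∀ p : ℕ, p.Prime → ∀ k, (p : ℤ) ∣ S k ↔ ¬ (p ∈ P ↔ (p : ℤ) ∣ s k k0) := by
    intro p hp k
    have : Fact p.Prime := ⟨hp⟩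
    rw [par hLsq (hs k k0) (hS k) (ht k) (hSt k), hLdvd p hp]
  have hrel : ∀ k l, IsSquare (S k * S l * s k l) := by
    intro k l
    apply isSquare_of_mul_sq (t := t k * t l) (mul_ne_zero (ht k) (ht l))
    obtain ⟨w, hw⟩ := hcoc k l k0
    -- s k l * s k k0 * s l k0
    refine ⟨L * w, ?_⟩
    calc S k * S l * s k l * (t k * t l) ^ 2 = (S k * t k ^ 2) * (S l * t l ^ 2) * s k l := by ring
      _ = (L * s k k0) * (L * s l k0) * s k l := by rw [hSt, hSt]
      _ = L ^ 2 * (s k l * s k k0 * s l k0) := by ring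
      _ = _ := by rw [hw]; ring
  refine ⟨S, hS, ?_, ?_, hrel⟩
  · -- the product
    apply isSquare_of_mul_sq (t := ∏ k, t k) (prod_ne_zero_iff.mpr fun k _ => ht k)
    obtain ⟨w, hw⟩ := hprod k0
    obtain ⟨n, hn⟩ := hev
    refine ⟨L ^ n * w, ?_⟩
    calc d * (∏ k, S k) * (∏ k, t k) ^ 2 = d * ∏ k, (S k * t k ^ 2) := by
          rw [prod_mul_distrib, prod_pow]; ring
      _ = d * ∏ k, (L * s k k0) := by rw [prod_congr rfl fun k _ => (hSt k).symm]
      _ = L ^ (n + n) * (d * ∏ k, s k k0) := by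
          rw [prod_mul_distrib, prod_const, card_univ, hn]; ring
      _ = _ := by rw [hw]; ring
  · intro p hp hpz i hi
    have hFp : Fact p.Prime := ⟨hp⟩
    have hpz' := Nat.prime_iff_prime_int.mp hp
    -- the type of `p`
    have hpd : (p : ℤ) ∣ d := by
      by_contra hnd
      have h4 := (hpar p hp i).mp hi
      have h5 : p ∉ P := by
        intro h
        have h6 := Nat.dvd_of_mem_primeFactors (mem_filter.mp h).1
        exact hnd (Int.natCast_dvd.mpr h6)
      have h6 := hloc0 p hp hpz hnd i k0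
      exact h4 (iff_of_false h5 h6)
    obtain ⟨j, hj⟩ := hloc1 p hp hpz hpd
    have hkey : ∀ k, k ≠ j → ¬ (p : ℤ) ∣ S k := by
      intro k hk
      rw [hpar p hp k, not_not]
      by_cases hj0 : j = k0
      · subst hj0
        refine iff_of_true ?_ (hj.2 k hk).1
        rw [hP, mem_filter]
        refine ⟨?_, hpz, hj⟩
        rw [Nat.mem_primeFactors]
        exact ⟨hp, Int.natCast_dvd.mp hpd, Int.natAbs_ne_zero.mpr hd⟩
      · refine iff_of_false ?_ (hj.1 k k0 hk (Ne.symm hj0)).1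
        intro hPm
        have hT := (mem_filter.mp hPm).2.2
        obtain ⟨m, hm1, hm2⟩ := h3 j k0
        exact (hj.1 m k0 hm1 (Ne.symm hj0)).1 (hT.2 m hm2).1
    have hij : i = j := by
      by_contra h
      exact hkey i h hi
    subst hij
    refine ⟨hkey, ?_⟩
    -- the symbols
    have hsq : ∀ a : ℤ, ¬ (p : ℤ) ∣ a → jacobiSym a p = 1 ∨ jacobiSym a p = -1 := by
      intro a ha
      rw [← jacobiSym.legendreSym.to_jacobiSym]
      apply legendreSym.eq_one_or_neg_one
      intro h0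
      exact ha ((ZMod.intCast_zmod_eq_zero_iff_dvd a p).mp h0)
    have hci : ∀ k, k ≠ i → ¬ (p : ℤ) ∣ e i - e k := fun k hk => hz0 i k hk.symm p hpz
    have hJ : ∀ k l, k ≠ i → l ≠ i → jacobiSym (S k) p * jacobiSym (S l) p =
        jacobiSym (e i - e k) p * jacobiSym (e i - e l) p := by
      intro k l hk hl
      obtain ⟨hnd, n, hn⟩ := hj.1 k l hk hl
      obtain ⟨w, hw⟩ := hrel k l
      have e1 : jacobiSym (S k * S l) p = jacobiSym (s k l) p := by
        apply sign_eq hp _ _ w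
        · intro h
          rcases hpz'.dvd_or_dvd h with h | h
          · exact hkey k hk h
          · exact hkey l hl h
        · exact hnd
        · rw [hw]
          simp [sq]
      have e2 : jacobiSym (s k l) p = jacobiSym ((e i - e k) * (e i - e l)) p := by
        apply sign_eq hp _ _ n hnd
        · intro h
          rcases hpz'.dvd_or_dvd h with h | h
          · exact hci k hk h
          · exact hci l hl h
        · exact hn
      rw [← jacobiSym.mul_left, ← jacobiSym.mul_left, e1, e2]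
    obtain ⟨l, hl, -⟩ := h3 i i
    refine W500.TW.ngs_mem (c := fun i k => e i - e k) hp hci
      (e := jacobiSym (S l) p * jacobiSym (e i - e l) p) ?_ ?_
    · rcases hsq _ (hkey l hl) with h2 | h2 <;> rcases hsq _ (hci l hl) with h3 | h3 <;>
        rw [h2, h3] <;> norm_num
    · intro k hk
      have h4 := hJ k l hk hl
      rcases hsq _ (hkey l hl) with h5 | h5 <;> rcases hsq _ (hci l hl) with h6 | h6 <;>
        rw [h5, h6] at h4 ⊢ <;> linarith

end

end Pool.Agent.W262.G3
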