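import Mathlib
import Pool.Agent.W623.SecG.Stm
import Pool.Agent.W262.G3.Comb
import Pool.Agent.W262.S3.Stm

/-! Sections of twists of curves with rational branch points: the global part. -/

namespace Pool.Agent.W262.G3

open Pool.Agent.W620.SC Pool.Agent.W262.TW Pool.Agent.W623.SecE Pool.Agent.W623.SecG
  Pool.Agent.W262.S3 Pool.Agent.W405.S3 Polynomial

universe v w

section

variable {F : Type v} {Ω : Type w} [Field F] [Field Ω] [Algebra ℚ F]
    [Algebra F Ω] [Algebra ℚ Ω] [IsScalarTower ℚ F Ω] [IsAlgClosed Ω] [Algebra.IsAlgebraic F Ω]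
    {U : Set (ValuationSubring F)}

/-- the square classes of the `(x - e k) * (x - e l)` -/
theorem global_ex (h1 : SECGLOB.{0, v, w}) {K : Type} [Fintype K] [DecidableEq K] (e : K → ℤ)
    (he : Function.Injective e) (hev : Even (Fintype.card K)) (d : ℤ) (hd : d ≠ 0)
    (hU : ∀ O ∈ U, ∀ c : ℚ, algebraMap ℚ F c ∈ O)
    (G : GSection ℚ F Ω U) (x y : F) (hxy : (d : F) * y ^ 2 = ∏ k, (x - (e k : F)))
    (hx : Transcendental ℚ x) :
    ∃ (s : K → K → ℤ) (β : K → K → unramified F Ω U), (∀ k l, Squarefree (s k l)) ∧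
      (∀ k l σ, G.toHom σ (β k l) = β k l) ∧
      (∀ k l, algebraMap ℚ Ω (s k l) * (β k l : Ω) ^ 2 =
        algebraMap F Ω ((x - (e k : F)) * (x - (e l : F)))) ∧ (∀ k, s k k = 1) := by
  classical
  set f : ℚ[X] := ∏ k, (X - C ((e k : ℤ) : ℚ)) with hf
  have hfd : f.natDegree = Fintype.card K := by
    rw [hf, natDegree_prod_of_monic _ _ fun k _ => monic_X_sub_C _,
      Finset.sum_congr rfl fun k _ => natDegree_X_sub_C _]
    simp
  have hfsep : f.Separable := by
    rw [hf, separable_prod_X_sub_C_iff]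
    intro i k hik
    have hik' : ((e i : ℤ) : ℚ) = ((e k : ℤ) : ℚ) := hik
    exact he (by exact_mod_cast hik')
  have hae : ∀ k, aeval x (X - C ((e k : ℤ) : ℚ)) = x - (e k : F) := by
    intro k
    simp
  have hfx : aeval x f = ∏ k, (x - (e k : F)) := by
    rw [hf, map_prod]
    exact Finset.prod_congr rfl fun k _ => hae k
  have key : ∀ k l, ∃ (s : ℤ) (β : unramified F Ω U), Squarefree s ∧ (∀ σ, G.toHom σ β = β) ∧
      algebraMap ℚ Ω s * (β : Ω) ^ 2 = algebraMap F Ω ((x - (e k : F)) * (x - (e l : F))) ∧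
      (k = l → s = 1) := by
    intro k l
    by_cases hkl : k = l
    · subst hkl
      refine ⟨1, algebraMap F (unramified F Ω U) (x - (e k : F)), squarefree_one,
        fun σ => AlgEquiv.commutes _ _, ?_, fun _ => rfl⟩
      have e1 : ((algebraMap F (unramified F Ω U) (x - (e k : F)) : unramified F Ω U) : Ω) =
          algebraMap F Ω (x - (e k : F)) := rfl
      rw [e1, Int.cast_one, map_one, one_mul, map_mul, sq]
    · obtain ⟨c, β, hc0, hβ, hcβ⟩ := h1 ℚ F Ω f hfsep (by rw [hfd]; exact hev) (d : ℚ)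
        (by exact_mod_cast hd) U hU G x y (by rw [map_intCast, hxy, hfx]) hx
        ((X - C ((e k : ℤ) : ℚ)) * (X - C ((e l : ℤ) : ℚ)))
        (by
          rw [hf, ← Finset.mul_prod_erase Finset.univ _ (Finset.mem_univ k)]
          exact mul_dvd_mul_left _ (Finset.dvd_prod_of_mem _ (Finset.mem_erase.mpr
            ⟨Ne.symm hkl, Finset.mem_univ l⟩)))
        (by
          rw [(monic_X_sub_C _).natDegree_mul (monic_X_sub_C _), natDegree_X_sub_C,
            natDegree_X_sub_C]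
          exact ⟨1, rfl⟩)
      rw [map_mul, hae, hae] at hcβ
      have hden : (c.den : ℚ) ≠ 0 := by exact_mod_cast c.den_ne_zero
      obtain ⟨s, t, ht, hs, hst⟩ := Pool.Agent.W311.TW.exists_sqf (c.num * c.den)
        (mul_ne_zero (Rat.num_ne_zero.2 hc0) (by exact_mod_cast c.den_ne_zero))
      have hcs : c = s * ((t : ℚ) / c.den) ^ 2 := by
        have h2 : (c.num * c.den : ℚ) = s * t ^ 2 := by exact_mod_cast hst
        rw [div_pow, mul_div_assoc', ← h2]
        have e := Rat.num_div_den c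
        nth_rewrite 1 [← e]
        field_simp
      refine ⟨s, algebraMap F (unramified F Ω U) (algebraMap ℚ F ((t : ℚ) / c.den)) * β, hs, ?_,
        ?_, fun h => absurd h hkl⟩
      · intro σ
        rw [map_mul, AlgEquiv.commutes, hβ]
      · have e5 : algebraMap ℚ Ω c = algebraMap ℚ Ω s *
            (algebraMap ℚ Ω ((t : ℚ) / c.den)) ^ 2 := by
          rw [← map_pow, ← map_mul, ← hcs]
        rw [← hcβ, e5]
        have e1 : ((algebraMap F (unramified F Ω U) (algebraMap ℚ F ((t : ℚ) / c.den)) * β :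
            unramified F Ω U) : Ω) = algebraMap ℚ Ω ((t : ℚ) / c.den) * (β : Ω) := by
          rw [IsScalarTower.algebraMap_apply ℚ F Ω ((t : ℚ) / c.den)]
          rfl
        rw [e1]
        ring
  choose s β hs hβ hsβ hs1 using key
  exact ⟨s, β, hs, hβ, hsβ, fun k => hs1 k k rfl⟩

variable {K : Type} [Fintype K] [DecidableEq K] {e : K → ℤ} {G : GSection ℚ F Ω U} {x : F}
  {s : K → K → ℤ} {β : K → K → unramified F Ω U}

omit [Fintype K] [DecidableEq K] [IsAlgClosed Ω] [Algebra.IsAlgebraic F Ω] in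
theorem x_ne (hx : Transcendental ℚ x) (n : ℤ) : x - (n : F) ≠ 0 := by
  intro h
  have h1 := (transcendental_iff.mp hx) (X - C (n : ℚ)) (by simpa using h)
  exact X_sub_C_ne_zero _ h1

omit [Fintype K] [DecidableEq K] [IsAlgClosed Ω] [Algebra.IsAlgebraic F Ω] in
theorem beta_ne (hx : Transcendental ℚ x)
    (hsβ : ∀ k l, algebraMap ℚ Ω (s k l) * (β k l : Ω) ^ 2 =
        algebraMap F Ω ((x - (e k : F)) * (x - (e l : F)))) (k l : K) : (β k l : Ω) ≠ 0 := by
  intro h
  have h1 := hsβ k l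
  rw [h, zero_pow two_ne_zero, mul_zero] at h1
  exact (mul_ne_zero (x_ne hx (e k)) (x_ne hx (e l)))
    ((map_eq_zero (algebraMap F Ω)).mp h1.symm)

omit [Fintype K] [DecidableEq K] in
theorem cocycle (h6 : SQG.{v, w}) (hx : Transcendental ℚ x)
    (hβ : ∀ k l σ, G.toHom σ (β k l) = β k l)
    (hsβ : ∀ k l, algebraMap ℚ Ω (s k l) * (β k l : Ω) ^ 2 =
        algebraMap F Ω ((x - (e k : F)) * (x - (e l : F)))) (k l m : K) :
    IsSquare (s k l * s k m * s l m) := by
  have hn : ((β k l * β k m * β l m : unramified F Ω U) : Ω) ≠ 0 := by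
    have : ((β k l * β k m * β l m : unramified F Ω U) : Ω) =
      (β k l : Ω) * (β k m : Ω) * (β l m : Ω) := rfl
    rw [this]
    exact mul_ne_zero (mul_ne_zero (beta_ne hx hsβ k l) (beta_ne hx hsβ k m))
      (beta_ne hx hsβ l m)
  have := h6 F Ω U G (algebraMap F (unramified F Ω U)
    ((x - (e k : F)) * (x - (e l : F)) * (x - (e m : F))) * (β k l * β k m * β l m)⁻¹)
    ((s k l * s k m * s l m : ℤ) : ℚ)
    (by
      intro σ
      have e5 : G.toHom σ (β k l * β k m * β l m) = β k l * β k m * β l m := by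
        rw [map_mul (G.toHom σ), map_mul (G.toHom σ), hβ, hβ, hβ]
      rw [map_mul (G.toHom σ), AlgEquiv.commutes, map_inv₀, e5])
    (by
      have e1 : ((algebraMap F (unramified F Ω U)
          ((x - (e k : F)) * (x - (e l : F)) * (x - (e m : F))) * (β k l * β k m * β l m)⁻¹ :
          unramified F Ω U) : Ω) =
          algebraMap F Ω ((x - (e k : F)) * (x - (e l : F)) * (x - (e m : F))) *
          (((β k l * β k m * β l m : unramified F Ω U)) : Ω)⁻¹ := rfl
      have e2 : ((β k l * β k m * β l m : unramified F Ω U) : Ω) =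
        (β k l : Ω) * (β k m : Ω) * (β l m : Ω) := rfl
      rw [e1, mul_pow, inv_pow, ← div_eq_mul_inv, div_eq_iff (pow_ne_zero 2 hn), e2]
      have e3 : algebraMap ℚ Ω ((s k l * s k m * s l m : ℤ) : ℚ) =
          algebraMap ℚ Ω (s k l) * algebraMap ℚ Ω (s k m) * algebraMap ℚ Ω (s l m) := by
        rw [Int.cast_mul, Int.cast_mul, map_mul, map_mul]
      rw [e3]
      have e4 : algebraMap ℚ Ω (s k l) * algebraMap ℚ Ω (s k m) * algebraMap ℚ Ω (s l m) *
          ((β k l : Ω) * (β k m : Ω) * (β l m : Ω)) ^ 2 =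
          (algebraMap ℚ Ω (s k l) * (β k l : Ω) ^ 2) * (algebraMap ℚ Ω (s k m) * (β k m : Ω) ^ 2) *
          (algebraMap ℚ Ω (s l m) * (β l m : Ω) ^ 2) := by ring
      rw [e4, hsβ, hsβ, hsβ]
      simp only [map_mul]
      ring)
  rwa [Rat.isSquare_intCast_iff] at this

omit [DecidableEq K] in
theorem product (h6 : SQG.{v, w}) (hx : Transcendental ℚ x) (hev : Even (Fintype.card K))
    (hβ : ∀ k l σ, G.toHom σ (β k l) = β k l)
    (hsβ : ∀ k l, algebraMap ℚ Ω (s k l) * (β k l : Ω) ^ 2 =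
        algebraMap F Ω ((x - (e k : F)) * (x - (e l : F)))) (d : ℤ) (y : F)
    (hxy : (d : F) * y ^ 2 = ∏ k, (x - (e k : F))) (l : K) :
    IsSquare (d * ∏ k, s k l) := by
  obtain ⟨n, hn⟩ := hev
  have hcoe : ((∏ k, β k l : unramified F Ω U) : Ω) = ∏ k, (β k l : Ω) := by
    exact map_prod (unramified F Ω U).val (fun k => β k l) Finset.univ
  have hγΩ : ((∏ k, β k l : unramified F Ω U) : Ω) ≠ 0 := by
    rw [hcoe, Finset.prod_ne_zero_iff]
    exact fun k _ => beta_ne hx hsβ k l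
  have hprod : algebraMap ℚ Ω (∏ k, (s k l : ℚ)) * ((∏ k, β k l : unramified F Ω U) : Ω) ^ 2 =
      algebraMap F Ω ((d : F) * (y * (x - (e l : F)) ^ n) ^ 2) := by
    have e1 : (d : F) * (y * (x - (e l : F)) ^ n) ^ 2 =
        ∏ k, ((x - (e k : F)) * (x - (e l : F))) := by
      rw [Finset.prod_mul_distrib, ← hxy, Finset.prod_const, Finset.card_univ, hn]
      ring
    rw [e1, map_prod, map_prod, hcoe, ← Finset.prod_pow, ← Finset.prod_mul_distrib]
    exact Finset.prod_congr rfl fun k _ => hsβ k l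
  have := h6 F Ω U G (algebraMap F (unramified F Ω U) ((d : F) * (y * (x - (e l : F)) ^ n)) *
    (∏ k, β k l)⁻¹) ((d * ∏ k, s k l : ℤ) : ℚ)
    (by
      intro σ
      rw [map_mul, AlgEquiv.commutes, map_inv₀, map_prod]
      congr 2
      exact Finset.prod_congr rfl fun k _ => hβ k l σ)
    (by
      have e1 : ((algebraMap F (unramified F Ω U) ((d : F) * (y * (x - (e l : F)) ^ n)) *
          (∏ k, β k l)⁻¹ : unramified F Ω U) : Ω) =
          algebraMap F Ω ((d : F) * (y * (x - (e l : F)) ^ n)) *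
            (((∏ k, β k l : unramified F Ω U)) : Ω)⁻¹ := rfl
      rw [e1, mul_pow, inv_pow, ← div_eq_mul_inv, div_eq_iff (pow_ne_zero 2 hγΩ)]
      have e2 : algebraMap ℚ Ω ((d * ∏ k, s k l : ℤ) : ℚ) =
          (d : Ω) * algebraMap ℚ Ω (∏ k, (s k l : ℚ)) := by
        rw [Int.cast_mul, map_mul, map_intCast, Int.cast_prod]
      rw [e2, mul_assoc, hprod]
      have e3 : (d : Ω) = algebraMap F Ω (d : F) := (map_intCast _ _).symm
      rw [e3, ← map_mul, ← map_pow]
      congr 1
      ring)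
  rwa [Rat.isSquare_intCast_iff] at this

omit [Fintype K] [DecidableEq K] [IsAlgClosed Ω] [Algebra.IsAlgebraic F Ω] in
/-- constant type -/
theorem at_of (hβ : ∀ k l σ, G.toHom σ (β k l) = β k l)
    (hsβ : ∀ k l, algebraMap ℚ Ω (s k l) * (β k l : Ω) ^ 2 =
        algebraMap F Ω ((x - (e k : F)) * (x - (e l : F)))) (S : K → ℤ) (hS : ∀ k, S k ≠ 0)
    (hrel : ∀ k l, IsSquare (S k * S l * s k l)) (i : K)
    (h : ∀ k l, k ≠ i → l ≠ i → IsSquare (S k * S l * ((e i - e k) * (e i - e l)))) :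
    At G x e i := by
  intro l l' hl hl'
  obtain ⟨w, hw⟩ := hrel l l'
  obtain ⟨w', hw'⟩ := h l l' hl hl'
  have hSl : ((S l * S l' : ℤ) : ℚ) ≠ 0 := by exact_mod_cast mul_ne_zero (hS l) (hS l')
  have hq : ((s l l' * ((e i - e l) * (e i - e l')) : ℤ) : ℚ) =
      ((w * w' : ℤ) / (S l * S l' : ℤ) : ℚ) ^ 2 := by
    rw [div_pow, eq_div_iff (pow_ne_zero 2 hSl)]
    norm_cast
    linear_combination (S l * S l' * ((e i - e l) * (e i - e l'))) * hw + w * w * hw'
  set q : ℚ := ((w * w' : ℤ) / (S l * S l' : ℤ) : ℚ) with hqd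
  refine ⟨algebraMap F (unramified F Ω U) (algebraMap ℚ F q) * β l l', ?_, ?_⟩
  · intro σ
    rw [map_mul, AlgEquiv.commutes, hβ]
  · have e1 : ((algebraMap F (unramified F Ω U) (algebraMap ℚ F q) * β l l' :
        unramified F Ω U) : Ω) = algebraMap ℚ Ω q * (β l l' : Ω) := by
      rw [IsScalarTower.algebraMap_apply ℚ F Ω q]
      rfl
    have e2 : algebraMap F Ω ((((e i - e l) * (e i - e l') : ℤ)) : F) =
        algebraMap ℚ Ω (((e i - e l) * (e i - e l') : ℤ) : ℚ) := by
      rw [map_intCast, map_intCast]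
    rw [e1, map_mul (algebraMap F Ω), ← hsβ, e2, mul_pow, ← map_pow, ← hq]
    rw [Int.cast_mul (s l l'), map_mul]
    ring

end

end Pool.Agent.W262.G3
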