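import Mathlib
import Pool.Agent.W623.SecG.Stm
import Pool.Agent.W262.G3.Comb
import Pool.Agent.W262.S3.Stm

/-! Sections of twists of curves with rational branch points: the local part. -/

namespace Pool.Agent.W262.G3

open Pool.Agent.W620.SC Pool.Agent.W262.TW Pool.Agent.W623.SecE Pool.Agent.W623.SecG
  Pool.Agent.W262.S3 Pool.Agent.W405.S3 Polynomial

universe v w

section loc

variable {A : Type} [CommRing A] [IsDomain A] [IsDiscreteValuationRing A] [Algebra A ℚ]
  [IsFractionRing A ℚ] {p : ℕ}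

theorem val_odd (hp : Irreducible (p : A))
    (hm : ∀ n : ℤ, (n : A) ∈ IsLocalRing.maximalIdeal A ↔ (p : ℤ) ∣ n)
    {s : ℤ} {u : A} (hu : IsUnit u) {j : ℤ}
    (h : (s : ℚ) = algebraMap A ℚ u * algebraMap A ℚ (p : A) ^ (2 * j + 1)) : (p : ℤ) ∣ s := by
  by_contra hn
  obtain ⟨u, rfl⟩ := hu
  have hu' : algebraMap A ℚ (u : A) * algebraMap A ℚ ((u⁻¹ : Aˣ) : A) = 1 := by
    rw [← map_mul, Units.mul_inv, map_one]
  have h1 : 2 * j + 1 = 0 := by
    refine Pool.Agent.W623.SecC.zpow_unit_eq (k := ℚ) (p : A) hp (s * ((u⁻¹ : Aˣ) : A))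
      ((unit_of hm hn).mul (Units.isUnit _)) (2 * j + 1) ?_
    rw [map_mul, map_intCast, h]
    calc algebraMap A ℚ (p : A) ^ (2 * j + 1) =
          (algebraMap A ℚ (u : A) * algebraMap A ℚ ((u⁻¹ : Aˣ) : A)) *
          algebraMap A ℚ (p : A) ^ (2 * j + 1) := by rw [hu', one_mul]
      _ = _ := by ring
  omega

end loc

/-- the local part -/
theorem local_part (h3 : SECLOC2.{0, v, w}) (h4 : ZLOC) {K : Type} [Fintype K] [DecidableEq K]
    (e : K → ℤ) (hK : 6 ≤ Fintype.card K) (hev : Even (Fintype.card K))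
    (p : ℕ) (hp : p.Prime) (hp2 : 2 < p) (hpe : ∀ i k, i ≠ k → ¬ (p : ℤ) ∣ e i - e k)
    (d : ℤ) (hd : Squarefree d)
    (F : Type v) (Ω : Type w) [Field F] [Field Ω] [Algebra ℚ F]
    [Algebra F Ω] [Algebra ℚ Ω] [IsScalarTower ℚ F Ω] [IsAlgClosed Ω] [Algebra.IsAlgebraic F Ω]
    (U : Set (ValuationSubring F)) (hU : ∀ O ∈ U, ∀ c : ℚ, algebraMap ℚ F c ∈ O)
    (G : GSection ℚ F Ω U) (x y : F) (hxy : (d : F) * y ^ 2 = ∏ k, (x - (e k : F)))
    (hx : Transcendental ℚ x) (s : K → K → ℤ) (β : K → K → unramified F Ω U)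
    (hs : ∀ k l, Squarefree (s k l)) (hβ : ∀ k l σ, G.toHom σ (β k l) = β k l)
    (hsβ : ∀ k l, algebraMap ℚ Ω (s k l) * (β k l : Ω) ^ 2 =
      algebraMap F Ω ((x - (e k : F)) * (x - (e l : F)))) (h1 : ∀ k, s k k = 1) :
    (¬ (p : ℤ) ∣ d → ∀ k l, ¬ (p : ℤ) ∣ s k l) ∧ ((p : ℤ) ∣ d → ∃ i, TI e s p i) := by
  classical
  obtain ⟨A, _, _, _, _, hfin, hfrac, hpi, hm, hres⟩ := h4 p hp
  have hpz := Nat.prime_iff_prime_int.mp hp
  have h2u : IsUnit (2 : A) := by
    have h5 : ¬ (p : ℤ) ∣ 2 := by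
      intro h
      have := Int.le_of_dvd (by norm_num) h
      omega
    have := unit_of hm h5
    simpa using this
  have hp1 : ¬ (p : ℤ) ∣ 1 := by
    intro h
    exact hpz.not_isUnit (isUnit_of_dvd_one h)
  -- the polynomial
  set f : A[X] := ∏ k, (X - C ((e k : ℤ) : A)) with hf
  have hfm : f.Monic := monic_prod_X_sub_C _ _
  have hfd : f.natDegree = Fintype.card K := by
    rw [hf, natDegree_prod_of_monic _ _ fun k _ => monic_X_sub_C _,
      Finset.sum_congr rfl fun k _ => natDegree_X_sub_C _]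
    simp
  have hne : ∀ i k, i ≠ k → ((e i : ℤ) : A) - ((e k : ℤ) : A) ∉ IsLocalRing.maximalIdeal A := by
    intro i k hik
    rw [← Int.cast_sub, hm]
    exact hpe i k hik
  have hfsep : (f.map (IsLocalRing.residue A)).Separable := by
    rw [hf, Polynomial.map_prod]
    simp only [Polynomial.map_sub, map_X, map_C]
    rw [separable_prod_X_sub_C_iff]
    intro i k hik
    by_contra h
    apply hne i k h
    have hik' : IsLocalRing.residue A ((e i : ℤ) : A) = IsLocalRing.residue A ((e k : ℤ) : A) :=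
      hik
    rw [← IsLocalRing.residue_eq_zero_iff, map_sub, hik', sub_self]
  have hae : ∀ k, aeval x ((X - C ((e k : ℤ) : A)).map (algebraMap A ℚ)) = x - (e k : F) := by
    intro k
    simp
  have hfx : aeval x (f.map (algebraMap A ℚ)) = ∏ k, (x - (e k : F)) := by
    rw [hf, Polynomial.map_prod, map_prod]
    exact Finset.prod_congr rfl fun k _ => hae k
  set r : K → K → A[X] := fun k l => (X - C ((e k : ℤ) : A)) * (X - C ((e l : ℤ) : A)) with hr
  have hrm : ∀ k l, (r k l).Monic := fun k l => (monic_X_sub_C _).mul (monic_X_sub_C _)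
  have hrd : ∀ k l, (r k l).natDegree = 2 := by
    intro k l
    rw [hr]
    change ((X - C ((e k : ℤ) : A)) * (X - C ((e l : ℤ) : A))).natDegree = 2
    rw [(monic_X_sub_C _).natDegree_mul (monic_X_sub_C _), natDegree_X_sub_C, natDegree_X_sub_C]
  have hrdvd : ∀ k l, k ≠ l → r k l ∣ f := by
    intro k l hkl
    rw [hf, ← Finset.mul_prod_erase Finset.univ _ (Finset.mem_univ k)]
    exact mul_dvd_mul_left _ (Finset.dvd_prod_of_mem _ (Finset.mem_erase.mpr
      ⟨hkl.symm, Finset.mem_univ l⟩))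
  have hrx : ∀ k l, aeval x ((r k l).map (algebraMap A ℚ)) = (x - (e k : F)) * (x - (e l : F)) := by
    intro k l
    rw [hr]
    change aeval x (((X - C ((e k : ℤ) : A)) * (X - C ((e l : ℤ) : A))).map (algebraMap A ℚ)) = _
    rw [Polynomial.map_mul, map_mul, hae, hae]
  have hrb : ∀ k l b, (r k l).eval b = (b - ((e k : ℤ) : A)) * (b - ((e l : ℤ) : A)) := by
    intro k l b
    simp [hr]
  have hmP : (IsLocalRing.maximalIdeal A).IsPrime := inferInstance
  have hs0 : ∀ k l, ((s k l : ℤ) : ℚ) ≠ 0 := fun k l => by exact_mod_cast (hs k l).ne_zero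
  constructor
  · intro hpd k l
    by_cases hkl : k = l
    · subst hkl
      rw [h1]
      exact hp1
    obtain ⟨b, -, hb⟩ := h3 A ℚ F Ω h2u f (by rw [hfm.leadingCoeff]; exact isUnit_one)
      (by rw [hfd]; exact hev) (by omega) hfsep (p : A) hpi (d : ℚ) (d : A) 0 (unit_of hm hpd)
      (by rw [map_intCast, zpow_zero, mul_one]) U hU G x y
      (by rw [map_intCast, hxy, hfx]) hx
    obtain ⟨u, j, hu, hc⟩ := (hb (r k l) (by rw [(hrm k l).leadingCoeff]; exact isUnit_one)
      (by rw [hrd]; exact even_two) (hrdvd k l hkl) (s k l : ℚ) (β k l) (hs0 k l) (hβ k l)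
      (by rw [hrx]; exact hsβ k l)).1 Even.zero
    exact (val_even hpi hm hp (hs k l) hu hc).1
  · intro hpd
    obtain ⟨n, hn⟩ := hpd
    have hnn : ¬ (p : ℤ) ∣ n := by
      rintro ⟨n', rfl⟩
      exact hpz.not_isUnit (hd (p : ℤ) ⟨n', by rw [hn]; ring⟩)
    obtain ⟨b, hbm, hb⟩ := h3 A ℚ F Ω h2u f (by rw [hfm.leadingCoeff]; exact isUnit_one)
      (by rw [hfd]; exact hev) (by omega) hfsep (p : A) hpi (d : ℚ) (n : A) 1 (unit_of hm hnn)
      (by
        rw [map_intCast, map_natCast, zpow_one, hn]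
        push_cast
        ring) U hU G x y
      (by rw [map_intCast, hxy, hfx]) hx
    have hb0 := hbm odd_one
    rw [hf, eval_prod, hmP.prod_mem_iff] at hb0
    obtain ⟨i, -, hi⟩ := hb0
    have hi' : b - ((e i : ℤ) : A) ∈ IsLocalRing.maximalIdeal A := by simpa using hi
    have hbk : ∀ k, k ≠ i → b - ((e k : ℤ) : A) ∉ IsLocalRing.maximalIdeal A := by
      intro k hk h
      apply hne i k (Ne.symm hk)
      have := Ideal.sub_mem _ h hi'
      have h5 : b - ((e k : ℤ) : A) - (b - ((e i : ℤ) : A)) = ((e i : ℤ) : A) - ((e k : ℤ) : A) := by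
        ring
      rwa [h5] at this
    refine ⟨i, ?_, ?_⟩
    · intro k l hk hl
      by_cases hkl : k = l
      · subst hkl
        rw [h1]
        exact ⟨hp1, e i - e k, by simp [sq]⟩
      have hrn : (r k l).eval b ∉ IsLocalRing.maximalIdeal A := by
        rw [hrb]
        intro h
        rcases hmP.mem_or_mem h with h | h
        · exact hbk k hk h
        · exact hbk l hl h
      obtain ⟨u, c, j, hu, hc, huc⟩ := (hb (r k l)
        (by rw [(hrm k l).leadingCoeff]; exact isUnit_one)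
        (by rw [hrd]; exact even_two) (hrdvd k l hkl) (s k l : ℚ) (β k l) (hs0 k l) (hβ k l)
        (by rw [hrx]; exact hsβ k l)).2.1 odd_one hrn
      obtain ⟨hv, hus⟩ := val_even hpi hm hp (hs k l) hu hc
      refine ⟨hv, ?_⟩
      obtain ⟨n', hn'⟩ := hres c
      refine ⟨n', ?_⟩
      rw [← hm]
      rw [hus, hrb] at huc
      have h6 : ((s k l * ((e i - e k) * (e i - e l)) - n' ^ 2 : ℤ) : A) =
          ((s k l : A) * ((b - ((e k : ℤ) : A)) * (b - ((e l : ℤ) : A))) - c ^ 2) -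
          ((s k l : A) * ((b - ((e k : ℤ) : A)) + (((e i : ℤ) : A) - ((e l : ℤ) : A)))) *
            (b - ((e i : ℤ) : A)) +
          (c + n') * (c - n') := by
        push_cast
        ring
      rw [h6]
      exact Ideal.add_mem _ (Ideal.sub_mem _ huc (Ideal.mul_mem_left _ _ hi'))
        (Ideal.mul_mem_left _ _ hn')
    · intro k hk
      have hodd : ∀ k l, k ≠ l → (r k l).eval b ∈ IsLocalRing.maximalIdeal A →
          (p : ℤ) ∣ s k l := by
        intro k l hkl hrn
        obtain ⟨u, j, hu, hc⟩ := (hb (r k l)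
          (by rw [(hrm k l).leadingCoeff]; exact isUnit_one)
          (by rw [hrd]; exact even_two) (hrdvd k l hkl) (s k l : ℚ) (β k l) (hs0 k l) (hβ k l)
          (by rw [hrx]; exact hsβ k l)).2.2 odd_one hrn
        exact val_odd hpi hm hu hc
      constructor
      · apply hodd k i hk
        rw [hrb]
        exact Ideal.mul_mem_left _ _ hi'
      · apply hodd i k (Ne.symm hk)
        rw [hrb]
        exact Ideal.mul_mem_right _ _ hi'

end Pool.Agent.W262.G3
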