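import Mathlib
import Pool.Agent.W262.G3.Loc
import Pool.Agent.W262.G3.Glo
import Pool.Agent.W240.S3.ZLoc
import Pool.Agent.W32.S3.Sqg

/-! Sections of twists of curves with rational branch points: for almost all twists all sections
are attached to branch points. -/

namespace Pool.Agent.W262.G3

open Finset Pool.Agent.W620.SC Pool.Agent.W262.TW Pool.Agent.W623.SecE Pool.Agent.W623.SecG
  Pool.Agent.W262.S3

universe v w

theorem selR_of_bad (h : SECLOC2.{0, v, w}) (g : SECGLOB.{0, v, w}) {K : Type} [Fintype K]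
    [DecidableEq K] (e : K → ℤ) (he : Function.Injective e) (hev : Even (Fintype.card K))
    (hK : 6 ≤ Fintype.card K) : ∃ z0 : ℕ, ∀ d : ℤ, Squarefree d → Bad2.{v, w} e d →
    SelR (fun i k => e i - e k) z0 d := by
  refine ⟨2 + ∑ i, ∑ k, (e i - e k).natAbs, ?_⟩
  rintro d hd ⟨F, Ω, _, _, _, _, _, _, _, _, U, G, x, y, hU, hx, hxy, hAt⟩
  have hnd : ∀ i k, i ≠ k → ∀ p : ℕ, 2 + ∑ i, ∑ k, (e i - e k).natAbs < p →
      ¬ (p : ℤ) ∣ e i - e k := by
    intro i k hik p hp hd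
    have h1 : (e i - e k).natAbs ≤ ∑ i, ∑ k, (e i - e k).natAbs :=
      (Finset.single_le_sum (f := fun k => (e i - e k).natAbs) (fun _ _ => Nat.zero_le _)
        (Finset.mem_univ k)).trans
      (Finset.single_le_sum (f := fun i => ∑ k, (e i - e k).natAbs) (fun _ _ => Nat.zero_le _)
        (Finset.mem_univ i))
    have h0 : e i - e k ≠ 0 := sub_ne_zero.mpr fun h => hik (he h)
    have h2 := Nat.le_of_dvd (Int.natAbs_pos.mpr h0) (Int.natCast_dvd.mp hd)
    omega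
  obtain ⟨s, β, hs, hβ, hsβ, h1⟩ := global_ex g e he hev d hd.ne_zero hU G x y hxy hx
  have hloc := fun (p : ℕ) (hp : p.Prime) (hpz : 2 + ∑ i, ∑ k, (e i - e k).natAbs < p) =>
    local_part h Pool.Agent.W240.S3.zloc e hK hev p hp (by omega)
      (fun i k hik => hnd i k hik p hpz) d hd F Ω U hU G x y hxy hx s β hs hβ hsβ h1
  obtain ⟨S, hS, hprod, hSl, hrel⟩ := comb e (by omega) hev (2 + ∑ i, ∑ k, (e i - e k).natAbs) hnd
    d s hs h1 (fun k l m => cocycle Pool.Agent.W32.S3.sqg.{v, w} hx hβ hsβ k l m)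
    (fun l => product Pool.Agent.W32.S3.sqg.{v, w} hx hev hβ hsβ d y hxy l) hd.ne_zero
    (fun p hp hpz => (hloc p hp hpz).1) (fun p hp hpz => (hloc p hp hpz).2)
  refine ⟨S, hS, hprod, hSl, fun i => ?_⟩
  by_contra hcon
  push Not at hcon
  exact hAt i (at_of hβ hsβ S (fun k => (hS k).ne_zero) hrel i hcon)

theorem fin2 (h : SECLOC2.{0, v, w}) (g : SECGLOB.{0, v, w}) : FIN2.{v, w} := by
  intro K _ _ e he hev hK hCR
  obtain ⟨z0, hz0⟩ := selR_of_bad h g e he hev hK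
  obtain ⟨C, hC⟩ := finr K (fun i k => e i - e k) (by omega)
    (fun i k hik => sub_ne_zero.mpr fun h => hik (he h)) hCR z0
  refine ⟨C, fun X hX => le_trans ?_ (hC X hX)⟩
  have hfin : {d : ℤ | d.natAbs ≤ X ∧ Squarefree d ∧ SelR (fun i k => e i - e k) z0 d}.Finite := by
    refine (Finset.finite_toSet (Finset.Icc (-(X : ℤ)) X)).subset ?_
    rintro d ⟨hd1, -⟩
    rw [Finset.mem_coe, Finset.mem_Icc]
    omega
  have hsub : {d : ℤ | d.natAbs ≤ X ∧ Squarefree d ∧ Bad2.{v, w} e d} ⊆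
      {d : ℤ | d.natAbs ≤ X ∧ Squarefree d ∧ SelR (fun i k => e i - e k) z0 d} := by
    rintro d ⟨h1, h2, h3⟩
    exact ⟨h1, h2, hz0 d h2 h3⟩
  have := Set.ncard_le_ncard hsub hfin
  exact_mod_cast this

end Pool.Agent.W262.G3
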